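import Pool.Agent.P.MP_b2749c_lc.Final

open Pool.Agent.P.MP_b2749c_lc in
/-- Level-transitivity of self-similar groups given by a recursion is undecidable, already for
one fixed alphabet size `d` and one fixed number `k` of generators: no partial recursive
function halts on every such input with the correct answer. -/
theorem Pool.Agent.Results.MP_b2749c_lc.Undecidable.result :
    ∃ d k : ℕ, 2 ≤ d ∧ ¬ ∃ f : ℕ × List (List (ℕ × List (ℕ × Bool))) →. Bool, Partrec f ∧
      ∀ (σ : Fin k → Equiv.Perm (Fin d)) (h : Fin k → Fin d → List (Fin k × Bool))
        (g : Fin k → Equiv.Perm (List (Fin d))),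
        (∀ i, g i [] = []) → (∀ i x w, g i (x :: w) = σ i x :: evalWord g (h i x) w) →
        ∃ b ∈ f (encodeInput d k σ h), (b = true ↔ LevelTransitive g) :=
  undecidable
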